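import Pool.Agent.H68.NC.Geo

/-!
# [H68 NC Chk] the checks in integers

`Mem`: six integer covectors (`2 k + b`-th: the facet `(k, b)`) and eight vertices in homogeneous coordinates.  `mchk`: the incidence conditions.
`cchk`: two members touch: a common plane, opposite sides, a point of the plane with all the other inequalities strict.
-/

set_option autoImplicit false

open MeasureTheory

namespace H68.NC

/-- covectors and points -/
abbrev Q4 := ℤ × ℤ × ℤ × ℤ

/-- the product -/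
def dot (h q : Q4) : ℤ := h.1 * q.1 + h.2.1 * q.2.1 + h.2.2.1 * q.2.2.1 + h.2.2.2 * q.2.2.2

/-- a member: facets and vertices -/
structure Mem where
  h : List Q4
  p : List Q4

/-- a facet -/
def Mem.f (M : Mem) (s : ℕ) : Q4 := M.h.getD s (0, 0, 0, 0)

/-- a vertex -/
def Mem.w (M : Mem) (s : ℕ) : Q4 := M.p.getD s (0, 0, 0, 0)

/-- the incidence conditions -/
def mchk (M : Mem) : Bool :=
  (List.range 8).all fun i => decide (0 < (M.w i).2.2.2) && (List.range 3).all fun k =>
    let b := (i / 2 ^ (2 - k)) % 2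
    decide (dot (M.f (2 * k + b)) (M.w i) = 0) && decide (0 < dot (M.f (2 * k + (1 - b))) (M.w i))

/-- the negative -/
def ngt (h : Q4) : Q4 := (-h.1, -h.2.1, -h.2.2.1, -h.2.2.2)

/-- the contact conditions -/
def cchk (M N : Mem) (c : ℕ × ℕ × Q4) : Bool :=
  decide (c.1 < 6) && decide (c.2.1 < 6) && decide (0 < c.2.2.2.2.2) && decide (N.f c.2.1 = ngt (M.f c.1)) && decide (dot (M.f c.1) c.2.2 = 0) &&
    decide ((M.f c.1).1 ≠ 0 ∨ (M.f c.1).2.1 ≠ 0 ∨ (M.f c.1).2.2.1 ≠ 0) &&
    ((List.range 6).all fun s => decide (s = c.1) || decide (0 < dot (M.f s) c.2.2)) &&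
    ((List.range 6).all fun s => decide (s = c.2.1) || decide (0 < dot (N.f s) c.2.2))

/-- one row -/
def rchk (M : Mem) : List Mem → List (ℕ × ℕ × Q4) → Bool
  | [], _ => true
  | _ :: _, [] => false
  | N :: Ns, c :: cs => cchk M N c && rchk M Ns cs

/-- all rows -/
def achk : List Mem → List (List (ℕ × ℕ × Q4)) → Bool
  | [], _ => true
  | _ :: _, [] => false
  | M :: Ms, r :: rs => mchk M && rchk M Ms r && achk Ms rs

theorem rchk_sound (M : Mem) (Ns : List Mem) (cs : List (ℕ × ℕ × Q4)) (h : rchk M Ns cs = true) :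
    ∀ N ∈ Ns, ∃ c, cchk M N c = true := by
  induction Ns generalizing cs with
  | nil => intro N hN; simp at hN
  | cons N Ns ih =>
    cases cs with
    | nil => simp [rchk] at h
    | cons c cs =>
      rw [rchk, Bool.and_eq_true] at h
      intro N' hN'
      rcases List.mem_cons.1 hN' with rfl | hN'
      · exact ⟨c, h.1⟩
      · exact ih cs h.2 N' hN'

theorem achk_sound (Ms : List Mem) (rs : List (List (ℕ × ℕ × Q4))) (h : achk Ms rs = true) :
    (∀ M ∈ Ms, mchk M = true) ∧ Ms.Pairwise (fun M N => ∃ c, cchk M N c = true) := by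
  induction Ms generalizing rs with
  | nil => exact ⟨by simp, List.Pairwise.nil⟩
  | cons M Ms ih =>
    cases rs with
    | nil => simp [achk] at h
    | cons r rs =>
      rw [achk, Bool.and_eq_true, Bool.and_eq_true] at h
      obtain ⟨h1, h2⟩ := ih rs h.2
      refine ⟨?_, List.Pairwise.cons (rchk_sound M Ms r h.1.2) h2⟩
      intro N hN
      rcases List.mem_cons.1 hN with rfl | hN
      · exact h.1.1
      · exact h1 N hN

/-- the linear function of a covector -/
noncomputable def lf (h : Q4) : E3 →L[ℝ] ℝ :=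
  (h.1 : ℝ) • EuclideanSpace.proj 0 + (h.2.1 : ℝ) • EuclideanSpace.proj 1 + (h.2.2.1 : ℝ) • EuclideanSpace.proj 2

theorem lf_apply (h : Q4) (x : E3) : lf h x = h.1 * x 0 + h.2.1 * x 1 + h.2.2.1 * x 2 := by
  simp [lf]

/-- the affine function of a covector -/
noncomputable def gg (h : Q4) : (E3 →L[ℝ] ℝ) × ℝ := (lf h, (h.2.2.2 : ℝ))

/-- the point of homogeneous coordinates -/
noncomputable def pt (q : Q4) : E3 := !₂[(q.1 : ℝ) / q.2.2.2, (q.2.1 : ℝ) / q.2.2.2, (q.2.2.1 : ℝ) / q.2.2.2]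

theorem af_pt (h q : Q4) (hq : 0 < q.2.2.2) : af (gg h) (pt q) = (dot h q : ℝ) / q.2.2.2 := by
  have h1 : (q.2.2.2 : ℝ) ≠ 0 := by exact_mod_cast hq.ne'
  unfold af gg
  rw [lf_apply]
  simp only [pt, dot]
  push_cast
  field_simp

theorem af_pt_zero (h q : Q4) (hq : 0 < q.2.2.2) (h0 : dot h q = 0) : af (gg h) (pt q) = 0 := by
  rw [af_pt h q hq, h0]
  simp

theorem af_pt_pos (h q : Q4) (hq : 0 < q.2.2.2) (h0 : 0 < dot h q) : 0 < af (gg h) (pt q) := by
  rw [af_pt h q hq]
  exact div_pos (by exact_mod_cast h0) (by exact_mod_cast hq)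

theorem af_ngt (h : Q4) (x : E3) : af (gg (ngt h)) x = -af (gg h) x := by
  unfold af gg ngt
  rw [lf_apply, lf_apply]
  push_cast
  ring

/-- the six functions of a member -/
noncomputable def Mem.g (M : Mem) (k : Fin 3) (b : Bool) : (E3 →L[ℝ] ℝ) × ℝ := gg (M.f (2 * k + b.toNat))

/-- the vertices of a member -/
noncomputable def Mem.v (M : Mem) (e : Fin 3 → Bool) : E3 := pt (M.w (4 * (e 0).toNat + 2 * (e 1).toNat + (e 2).toNat))

theorem mchk_sound (M : Mem) (h : mchk M = true) : Inc M.v M.g := by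
  unfold mchk at h
  simp only [List.all_eq_true, List.mem_range, Bool.and_eq_true, decide_eq_true_eq] at h
  have key : ∀ e : Fin 3 → Bool, ∀ k : Fin 3, 0 < (M.w (4 * (e 0).toNat + 2 * (e 1).toNat + (e 2).toNat)).2.2.2 ∧
      dot (M.f (2 * k + (e k).toNat)) (M.w (4 * (e 0).toNat + 2 * (e 1).toNat + (e 2).toNat)) = 0 ∧
      0 < dot (M.f (2 * k + (!(e k)).toNat)) (M.w (4 * (e 0).toNat + 2 * (e 1).toNat + (e 2).toNat)) := by
    intro e k
    obtain ⟨h1, h2⟩ := h (4 * (e 0).toNat + 2 * (e 1).toNat + (e 2).toNat)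
      (by cases e 0 <;> cases e 1 <;> cases e 2 <;> simp)
    refine ⟨h1, ?_⟩
    have h3 := h2 k k.2
    have hb : (4 * (e 0).toNat + 2 * (e 1).toNat + (e 2).toNat) / 2 ^ (2 - (k : ℕ)) % 2 = (e k).toNat := by
      fin_cases k <;> cases h0 : e 0 <;> cases h1 : e 1 <;> cases h2 : e 2 <;> simp [h0, h1, h2]
    have hb' : 1 - (e k).toNat = (!(e k)).toNat := by cases e k <;> rfl
    rw [hb, hb'] at h3
    exact h3
  constructor
  · intro k e
    exact af_pt_zero _ _ (key e k).1 (key e k).2.1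
  · intro k e
    exact af_pt_pos _ _ (key e k).1 (key e k).2.2

/-- a facet number -/
theorem facet_num (s : ℕ) (hs : s < 6) : ∃ (k : Fin 3) (b : Bool), s = 2 * k + b.toNat := by
  refine ⟨⟨s / 2, by omega⟩, decide (s % 2 = 1), ?_⟩
  simp only
  rcases Nat.mod_two_eq_zero_or_one s with h | h
  · rw [h]
    simp
    omega
  · rw [h]
    simp
    omega

theorem pol_iff (M : Mem) (x : E3) : x ∈ Pol M.g ↔ ∀ s < 6, 0 ≤ af (gg (M.f s)) x := by
  constructor
  · intro h s hs
    obtain ⟨k, b, rfl⟩ := facet_num s hs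
    exact h k b
  · intro h k b
    apply h
    cases b <;> simp <;> omega

theorem cchk_sound (M N : Mem) (c : ℕ × ℕ × Q4) (h : cchk M N c = true) :
    Disjoint (interior (Pol M.g)) (interior (Pol N.g)) ∧ 0 < μH[2] (Pol M.g ∩ Pol N.g) := by
  obtain ⟨s, t, q⟩ := c
  unfold cchk at h
  simp only [List.all_eq_true, List.mem_range, Bool.and_eq_true, Bool.or_eq_true, decide_eq_true_eq] at h
  obtain ⟨⟨⟨⟨⟨⟨⟨hs, ht⟩, hq⟩, hN⟩, h0⟩, hne⟩, hM1⟩, hN1⟩ := h
  have hP : ∀ x ∈ Pol M.g, 0 ≤ lf (M.f s) x + ((M.f s).2.2.2 : ℝ) := fun x hx => (pol_iff M x).1 hx s hs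
  have hQ : ∀ x ∈ Pol N.g, lf (M.f s) x + ((M.f s).2.2.2 : ℝ) ≤ 0 := by
    intro x hx
    have h1 := (pol_iff N x).1 hx t ht
    rw [hN, af_ngt] at h1
    exact neg_nonneg.1 h1
  have hne' : (![((M.f s).1 : ℝ), ((M.f s).2.1 : ℝ), ((M.f s).2.2.1 : ℝ)] : Fin 3 → ℝ) ≠ 0 := by
    intro h1
    rcases hne with h2 | h2 | h2
    · have := congrFun h1 0
      simp at this
      exact h2 this
    · have := congrFun h1 1
      simp at this
      exact h2 this
    · have := congrFun h1 2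
      simp at this
      exact h2 this
  obtain ⟨m, hm⟩ := Function.ne_iff.1 hne'
  have hform : ∀ x : E3, ∑ i, (![((M.f s).1 : ℝ), ((M.f s).2.1 : ℝ), ((M.f s).2.2.1 : ℝ)] : Fin 3 → ℝ) i * x i = lf (M.f s) x := by
    intro x
    rw [lf_apply, Fin.sum_univ_three]
    simp
  refine ⟨disj (lf (M.f s)) _ ?_ hP hQ, ?_⟩
  · intro h1
    apply hm
    have h2 := hform (EuclideanSpace.single m 1)
    rw [h1] at h2
    simpa using h2
  · let U : Set E3 := {x | (∀ r < 6, r ≠ s → 0 < af (gg (M.f r)) x) ∧ (∀ r < 6, r ≠ t → 0 < af (gg (N.f r)) x)}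
    have hU : IsOpen U := by
      have h1 : U = (⋂ r ∈ {r | r < 6 ∧ r ≠ s}, {x | 0 < af (gg (M.f r)) x}) ∩ (⋂ r ∈ {r | r < 6 ∧ r ≠ t}, {x | 0 < af (gg (N.f r)) x}) := by
        ext x
        simp [U]
      rw [h1]
      apply IsOpen.inter
      · exact Set.Finite.isOpen_biInter (Set.Finite.subset (Set.finite_lt_nat 6) fun r hr => hr.1) fun r _ =>
          isOpen_lt continuous_const (af_cont _)
      · exact Set.Finite.isOpen_biInter (Set.Finite.subset (Set.finite_lt_nat 6) fun r hr => hr.1) fun r _ =>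
          isOpen_lt continuous_const (af_cont _)
    have hp : pt q ∈ U := by
      refine ⟨fun r hr hrs => ?_, fun r hr hrt => ?_⟩
      · exact af_pt_pos _ _ hq ((hM1 r hr).resolve_left hrs)
      · exact af_pt_pos _ _ hq ((hN1 r hr).resolve_left hrt)
    have h1 := area_pos hm hU hp (c := ((M.f s).2.2.2 : ℝ)) (by rw [hform]; exact af_pt_zero _ _ hq h0)
    refine lt_of_lt_of_le h1 (measure_mono ?_)
    rintro x ⟨hx, hx0⟩
    have hx1 : af (gg (M.f s)) x = 0 := by
      have : ∑ i, (![((M.f s).1 : ℝ), ((M.f s).2.1 : ℝ), ((M.f s).2.2.1 : ℝ)] : Fin 3 → ℝ) i * x i + ((M.f s).2.2.2 : ℝ) = 0 := hx0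
      rw [hform] at this
      exact this
    constructor
    · rw [pol_iff]
      intro r hr
      by_cases hrs : r = s
      · rw [hrs, hx1]
      · exact (hx.1 r hr hrs).le
    · rw [pol_iff]
      intro r hr
      by_cases hrt : r = t
      · rw [hrt, hN, af_ngt, hx1, neg_zero]
      · exact (hx.2 r hr hrt).le

end H68.NC
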