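import Mathlib

/-!
# [H68 NC Crit] combinatorial cubes: a criterion

`Inc v g`: eight points `v e` (`e : Fin 3 → Bool`) and six affine functions `g k b` with `g k b (v e) = 0` for `e k = b` and `> 0` otherwise.
`hull_eq`: then the convex hull of the points is the set where all six functions are `≥ 0`.  `facesIso`: its exposed faces form the poset of the faces of the cube.
-/

set_option autoImplicit false

namespace H68.NC

/-- three-space -/
abbrev E3 := EuclideanSpace ℝ (Fin 3)

/-- an affine function -/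
def af (g : (E3 →L[ℝ] ℝ) × ℝ) (x : E3) : ℝ := g.1 x + g.2

/-- incidence of a combinatorial cube -/
structure Inc (v : (Fin 3 → Bool) → E3) (g : Fin 3 → Bool → (E3 →L[ℝ] ℝ) × ℝ) : Prop where
  zero : ∀ k e, af (g k (e k)) (v e) = 0
  pos : ∀ k e, 0 < af (g k (!(e k))) (v e)

/-- the neighbour of a vertex -/
def flip (k : Fin 3) (e : Fin 3 → Bool) : Fin 3 → Bool := Function.update e k (!(e k))

theorem flip_self (k : Fin 3) (e : Fin 3 → Bool) : flip k e k = !(e k) := by simp [flip]

theorem flip_ne {j k : Fin 3} (h : j ≠ k) (e : Fin 3 → Bool) : flip k e j = e j := by simp [flip, h]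

variable {v : (Fin 3 → Bool) → E3} {g : Fin 3 → Bool → (E3 →L[ℝ] ℝ) × ℝ}

theorem af_sub (g : (E3 →L[ℝ] ℝ) × ℝ) (x y : E3) : g.1 (x - y) = af g x - af g y := by
  unfold af
  rw [map_sub]
  ring

/-- the value at a neighbour -/
theorem Inc.nb_same (h : Inc v g) {j k : Fin 3} (hjk : j ≠ k) (e : Fin 3 → Bool) : af (g j (e j)) (v (flip k e)) = 0 := by
  have := h.zero j (flip k e)
  rwa [flip_ne hjk] at this

theorem Inc.nb_pos (h : Inc v g) (k : Fin 3) (e : Fin 3 → Bool) : 0 < af (g k (e k)) (v (flip k e)) := by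
  have := h.pos k (flip k e)
  rwa [flip_self, Bool.not_not] at this

/-- the edge vectors at a vertex -/
def edg (v : (Fin 3 → Bool) → E3) (e : Fin 3 → Bool) (k : Fin 3) : E3 := v (flip k e) - v e

theorem Inc.dual (h : Inc v g) (e : Fin 3 → Bool) (j k : Fin 3) :
    (g j (e j)).1 (edg v e k) = if j = k then af (g k (e k)) (v (flip k e)) else 0 := by
  unfold edg
  rw [af_sub, h.zero j e, sub_zero]
  split_ifs with hjk
  · rw [hjk]
  · exact h.nb_same hjk e

theorem Inc.li (h : Inc v g) (e : Fin 3 → Bool) : LinearIndependent ℝ (edg v e) := by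
  rw [Fintype.linearIndependent_iff]
  intro c hc k
  have h1 := congrArg (g k (e k)).1 hc
  rw [map_sum, map_zero] at h1
  simp only [map_smul, h.dual, smul_eq_mul, mul_ite, mul_zero, Finset.sum_ite_eq, Finset.mem_univ, if_true] at h1
  exact (mul_eq_zero.1 h1).resolve_right (h.nb_pos k e).ne'

/-- every point in the coordinates of a vertex -/
theorem Inc.cone (h : Inc v g) (e : Fin 3 → Bool) (p : E3) :
    p - v e = ∑ k, (af (g k (e k)) p / af (g k (e k)) (v (flip k e))) • edg v e k := by
  have hcard : Fintype.card (Fin 3) = Module.finrank ℝ E3 := by simp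
  let B := basisOfLinearIndependentOfCardEqFinrank (h.li e) hcard
  have hB : ∀ k, B k = edg v e k := fun k => by simp [B]
  have h1 := (B.sum_repr (p - v e)).symm
  rw [h1]
  refine Finset.sum_congr rfl fun k _ => ?_
  rw [hB]
  congr 1
  have h2 := congrArg (g k (e k)).1 h1
  rw [af_sub, h.zero k e, sub_zero, map_sum] at h2
  simp only [map_smul, hB, h.dual, smul_eq_mul, mul_ite, mul_zero, Finset.sum_ite_eq, Finset.mem_univ, if_true] at h2
  rw [h2, mul_div_assoc, div_self (h.nb_pos k e).ne', mul_one]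

/-- a linear function in the coordinates of a vertex -/
theorem Inc.lin (h : Inc v g) (e : Fin 3 → Bool) (p : E3) (f : E3 →L[ℝ] ℝ) :
    f p - f (v e) = ∑ k, (af (g k (e k)) p / af (g k (e k)) (v (flip k e))) * (f (v (flip k e)) - f (v e)) := by
  rw [← map_sub, h.cone e p, map_sum]
  refine Finset.sum_congr rfl fun k _ => ?_
  rw [map_smul, smul_eq_mul, edg, map_sub]

theorem Inc.nonneg (h : Inc v g) (k : Fin 3) (b : Bool) (e : Fin 3 → Bool) : 0 ≤ af (g k b) (v e) := by
  by_cases hb : b = e k
  · rw [hb, h.zero]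
  · have : b = !(e k) := by
      cases b <;> cases he : e k <;> simp_all
    rw [this]
    exact (h.pos k e).le

theorem convex_pos (g : (E3 →L[ℝ] ℝ) × ℝ) : Convex ℝ {x | 0 ≤ af g x} := by
  intro x hx y hy a b ha hb hab
  simp only [Set.mem_ofPred_eq, af] at hx hy ⊢
  rw [map_add, map_smul, map_smul, smul_eq_mul, smul_eq_mul]
  have : a * g.1 x + b * g.1 y + g.2 = a * (g.1 x + g.2) + b * (g.1 y + g.2) := by
    have h1 : g.2 = (a + b) * g.2 := by rw [hab, one_mul]
    linear_combination h1
  rw [this]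
  exact add_nonneg (mul_nonneg ha hx) (mul_nonneg hb hy)

/-- the polyhedron of the six functions -/
def Pol (g : Fin 3 → Bool → (E3 →L[ℝ] ℝ) × ℝ) : Set E3 := {x | ∀ k b, 0 ≤ af (g k b) x}

theorem hull_sub_pol (h : Inc v g) : convexHull ℝ (Set.range v) ⊆ Pol g := by
  apply convexHull_min
  · rintro _ ⟨e, rfl⟩ k b
    exact h.nonneg k b e
  · have h1 : Pol g = ⋂ k, ⋂ b, {x | 0 ≤ af (g k b) x} := by
      ext x
      simp [Pol]
    rw [h1]
    exact convex_iInter fun k => convex_iInter fun b => convex_pos _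

theorem pol_sub_hull (h : Inc v g) : Pol g ⊆ convexHull ℝ (Set.range v) := by
  intro p hp
  by_contra hc
  have hcl : IsClosed (convexHull ℝ (Set.range v)) := (Set.finite_range v).isClosed_convexHull ℝ
  obtain ⟨f, u, h1, h2⟩ := geometric_hahn_banach_point_closed (convex_convexHull ℝ _) hcl hc
  obtain ⟨e, he⟩ := Finite.exists_min (fun e => f (v e))
  have h3 := h.lin e p f
  have h4 : 0 ≤ f p - f (v e) := by
    rw [h3]
    refine Finset.sum_nonneg fun k _ => mul_nonneg (div_nonneg (hp k (e k)) (h.nb_pos k e).le) ?_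
    exact sub_nonneg.2 (he (flip k e))
  have h5 := h2 (v e) (subset_convexHull ℝ _ ⟨e, rfl⟩)
  linarith

theorem hull_eq (h : Inc v g) : convexHull ℝ (Set.range v) = Pol g :=
  Set.Subset.antisymm (hull_sub_pol h) (pol_sub_hull h)

/-- the faces of the combinatorial cube, as sets of vertices -/
def IsSub (S : Set (Fin 3 → Bool)) : Prop := ∀ e ∈ S, ∀ e', e' ∈ S ↔ ∀ k, e' k ≠ e k → flip k e ∈ S

/-- the vertices of an exposed face -/
theorem face_sub (h : Inc v g) {F : Set E3} (hF : IsExposed ℝ (Pol g) F) : IsSub {e | v e ∈ F} := by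
  intro e he e'
  obtain ⟨l, hl⟩ := hF ⟨_, he⟩
  have hmem : ∀ e, v e ∈ Pol g := fun e => hull_sub_pol h (subset_convexHull ℝ _ ⟨e, rfl⟩)
  simp only [Set.mem_ofPred_eq] at he ⊢
  rw [hl] at he
  have hmax : ∀ e'', l (v e'') ≤ l (v e) := fun e'' => he.2 _ (hmem e'')
  have hiff : ∀ e'', v e'' ∈ F ↔ l (v e'') = l (v e) := by
    intro e''
    rw [hl]
    constructor
    · intro h1
      exact le_antisymm (hmax e'') (h1.2 _ (hmem e))
    · intro h1
      refine ⟨hmem e'', fun y hy => ?_⟩
      rw [h1]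
      exact he.2 y hy
  rw [hiff]
  have h1 := h.lin e (v e') l
  have h2 : ∀ k, (af (g k (e k)) (v e') / af (g k (e k)) (v (flip k e))) * (l (v (flip k e)) - l (v e)) ≤ 0 := by
    intro k
    exact mul_nonpos_of_nonneg_of_nonpos (div_nonneg (h.nonneg k (e k) e') (h.nb_pos k e).le) (sub_nonpos.2 (hmax _))
  constructor
  · intro h3 k hk
    rw [hiff]
    rw [h3, sub_self] at h1
    have h4 := (Finset.sum_eq_zero_iff_of_nonpos (fun k _ => h2 k)).1 h1.symm k (Finset.mem_univ k)
    have h5 : 0 < af (g k (e k)) (v e') := by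
      have h6 : e k = !(e' k) := by
        cases hh : e k <;> cases hh' : e' k <;> simp_all
      rw [h6]
      exact h.pos k e'
    rcases mul_eq_zero.1 h4 with h7 | h7
    · exact absurd h7 (div_pos h5 (h.nb_pos k e)).ne'
    · exact sub_eq_zero.1 h7
  · intro h3
    have h4 : l (v e') - l (v e) = 0 := by
      rw [h1]
      refine Finset.sum_eq_zero fun k _ => ?_
      by_cases hk : e' k = e k
      · have : af (g k (e k)) (v e') = 0 := by
          rw [← hk]
          exact h.zero k e'
        rw [this, zero_div, zero_mul]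
      · rw [(hiff _).1 (h3 k hk), sub_self, mul_zero]
    linarith

/-- an exposed face is the hull of its vertices -/
theorem face_hull (h : Inc v g) {F : Set E3} (hF : IsExposed ℝ (Pol g) F) : F = convexHull ℝ (v '' {e | v e ∈ F}) := by
  apply Set.Subset.antisymm
  · intro x hx
    obtain ⟨l, hl⟩ := hF ⟨x, hx⟩
    have hx1 := hx
    rw [hl] at hx1
    have hx2 : x ∈ convexHull ℝ (Set.range v) := by
      rw [hull_eq h]
      exact hx1.1
    rw [convexHull_eq] at hx2
    obtain ⟨ι, t, w, z, hw0, hw1, hz, hx3⟩ := hx2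
    have hx4 : x = ∑ i ∈ t, w i • z i := by rw [← hx3, Finset.centerMass_eq_of_sum_1 _ _ hw1]
    have hzP : ∀ i ∈ t, z i ∈ Pol g := by
      intro i hi
      rw [← hull_eq h]
      exact subset_convexHull ℝ _ (hz i hi)
    have hle : ∀ i ∈ t, 0 ≤ w i * (l x - l (z i)) := fun i hi =>
      mul_nonneg (hw0 i hi) (sub_nonneg.2 (hx1.2 _ (hzP i hi)))
    have hsum : ∑ i ∈ t, w i * (l x - l (z i)) = 0 := by
      have h1 : l x = ∑ i ∈ t, w i * l (z i) := by
        conv_lhs => rw [hx4, map_sum]
        refine Finset.sum_congr rfl fun i _ => ?_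
        rw [map_smul, smul_eq_mul]
      simp only [mul_sub, Finset.sum_sub_distrib]
      rw [← Finset.sum_mul, hw1, one_mul, ← h1, sub_self]
    have hz0 := (Finset.sum_eq_zero_iff_of_nonneg hle).1 hsum
    rw [← hx3, ← Finset.centerMass_filter_ne_zero z]
    apply Finset.centerMass_mem_convexHull
    · intro i hi
      exact hw0 i (Finset.mem_filter.1 hi).1
    · rw [Finset.sum_filter_ne_zero, hw1]
      exact one_pos
    · intro i hi
      obtain ⟨hi1, hi2⟩ := Finset.mem_filter.1 hi
      obtain ⟨e, he⟩ := hz i hi1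
      refine ⟨e, ?_, he⟩
      show v e ∈ F
      have h1 : l (z i) = l x := by
        have := (mul_eq_zero.1 (hz0 i hi1)).resolve_left hi2
        linarith
      rw [he, hl]
      refine ⟨hzP i hi1, fun y hy => ?_⟩
      rw [h1]
      exact hx1.2 y hy
  · apply convexHull_min
    · rintro _ ⟨e, he, rfl⟩
      exact he
    · exact hF.convex (by rw [← hull_eq h]; exact convex_convexHull ℝ _)

/-- the poset of the faces -/
abbrev CF := {S : Set (Fin 3 → Bool) // IsSub S}

/-- the exposed faces of a set -/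
abbrev Faces (P : Set E3) := {F : Set E3 // IsExposed ℝ P F}

/-- the vertices of a face -/
def vt (h : Inc v g) (F : Faces (Pol g)) : CF := ⟨{e | v e ∈ F.1}, face_sub h F.2⟩

theorem vt_le (h : Inc v g) (F F' : Faces (Pol g)) : vt h F ≤ vt h F' ↔ F ≤ F' := by
  constructor
  · intro h1
    show F.1 ⊆ F'.1
    rw [face_hull h F.2, face_hull h F'.2]
    exact convexHull_mono (Set.image_mono h1)
  · intro h1 e he
    exact h1 he

theorem vt_surj (h : Inc v g) : Function.Surjective (vt h) := by
  rintro ⟨S, hS⟩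
  rcases S.eq_empty_or_nonempty with rfl | ⟨e, he⟩
  · refine ⟨⟨∅, fun h1 => absurd h1 (by simp)⟩, ?_⟩
    apply Subtype.ext
    ext e
    simp [vt]
  · classical
    let D : Finset (Fin 3) := Finset.univ.filter (fun k => flip k e ∉ S)
    let l : E3 →L[ℝ] ℝ := -∑ k ∈ D, (g k (e k)).1
    let F : Set E3 := {x ∈ Pol g | ∀ y ∈ Pol g, l y ≤ l x}
    have hv : ∀ e, v e ∈ Pol g := fun e k b => h.nonneg k b e
    have hl : ∀ x, l x = ∑ k ∈ D, (g k (e k)).2 - ∑ k ∈ D, af (g k (e k)) x := by
      intro x
      simp only [l, af, neg_apply, sum_apply, Finset.sum_add_distrib]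
      ring
    have hle : ∀ y ∈ Pol g, l y ≤ l (v e) := by
      intro y hy
      rw [hl, hl]
      have h1 : ∑ k ∈ D, af (g k (e k)) (v e) = 0 := Finset.sum_eq_zero fun k _ => h.zero k e
      have h2 : 0 ≤ ∑ k ∈ D, af (g k (e k)) y := Finset.sum_nonneg fun k _ => hy k (e k)
      linarith
    refine ⟨⟨F, fun _ => ⟨l, rfl⟩⟩, ?_⟩
    apply Subtype.ext
    ext e'
    show v e' ∈ F ↔ e' ∈ S
    rw [hS e he e']
    have h0 : v e' ∈ F ↔ l (v e') = l (v e) := by
      constructor
      · intro h1
        exact le_antisymm (hle _ (hv e')) (h1.2 _ (hv e))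
      · intro h1
        refine ⟨hv e', fun y hy => ?_⟩
        rw [h1]
        exact hle y hy
    have h1 : l (v e') = l (v e) ↔ ∑ k ∈ D, af (g k (e k)) (v e') = 0 := by
      rw [hl, hl]
      have h1 : ∑ k ∈ D, af (g k (e k)) (v e) = 0 := Finset.sum_eq_zero fun k _ => h.zero k e
      rw [h1]
      constructor
      · intro h2
        linarith
      · intro h2
        linarith
    rw [h0, h1, Finset.sum_eq_zero_iff_of_nonneg (fun k _ => h.nonneg k (e k) e')]
    constructor
    · intro h2 k hk
      by_contra h3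
      have h4 := h2 k (by simp [D, h3])
      have h6 : e k = !(e' k) := by
        cases hh : e k <;> cases hh' : e' k <;> simp_all
      rw [h6] at h4
      exact (h.pos k e').ne' h4
    · intro h2 k hk
      by_cases h3 : e' k = e k
      · rw [← h3]
        exact h.zero k e'
      · exact absurd (h2 k h3) (Finset.mem_filter.1 hk).2

/-- the exposed faces form the face lattice of the cube -/
noncomputable def facesIso (h : Inc v g) : Faces (Pol g) ≃o CF :=
  RelIso.ofSurjective (OrderEmbedding.ofMapLEIff (vt h) (vt_le h)) (vt_surj h)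

end H68.NC
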