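import Pool.Agent.H68.NC.Crit

/-!
# [H68 NC Geo] contact of two polyhedra

`disj`: two sets on opposite sides of a plane have disjoint interiors.  `area_pos`: the points of a plane near one of its points have positive
two-dimensional Hausdorff measure.  `inner`: a combinatorial cube has interior points.
-/

set_option autoImplicit false

open MeasureTheory
open scoped NNReal ENNReal

namespace H68.NC

variable {v : (Fin 3 → Bool) → E3} {g : Fin 3 → Bool → (E3 →L[ℝ] ℝ) × ℝ}

theorem af_cont (g : (E3 →L[ℝ] ℝ) × ℝ) : Continuous (af g) := g.1.continuous.add continuous_const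

theorem inner (h : Inc v g) : (interior (Pol g)).Nonempty := by
  have hO : IsOpen {x : E3 | ∀ k b, 0 < af (g k b) x} := by
    have h1 : {x : E3 | ∀ k b, 0 < af (g k b) x} = ⋂ k, ⋂ b, {x | 0 < af (g k b) x} := by
      ext x
      simp
    rw [h1]
    exact isOpen_iInter_of_finite fun k => isOpen_iInter_of_finite fun b => isOpen_lt continuous_const (af_cont _)
  have hsub : {x : E3 | ∀ k b, 0 < af (g k b) x} ⊆ Pol g := fun x hx k b => (hx k b).le
  refine ⟨(1 / 8 : ℝ) • ∑ e, v e, interior_maximal hsub hO ?_⟩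
  intro k b
  have h1 : af (g k b) ((1 / 8 : ℝ) • ∑ e, v e) = (1 / 8 : ℝ) * ∑ e, af (g k b) (v e) := by
    unfold af
    rw [map_smul, map_sum, smul_eq_mul, Finset.sum_add_distrib, Finset.sum_const, Finset.card_univ]
    simp
    ring
  rw [h1]
  refine mul_pos (by norm_num) (Finset.sum_pos' (fun e _ => h.nonneg k b e) ?_)
  refine ⟨fun _ => !b, Finset.mem_univ _, ?_⟩
  have := h.pos k (fun _ => !b)
  simpa using this

/-- opposite sides of a plane -/
theorem disj {P Q : Set E3} (l : E3 →L[ℝ] ℝ) (c : ℝ) (hl : l ≠ 0) (hP : ∀ x ∈ P, 0 ≤ l x + c) (hQ : ∀ x ∈ Q, l x + c ≤ 0) :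
    Disjoint (interior P) (interior Q) := by
  rw [Set.disjoint_left]
  intro x hxP hxQ
  have h1 : x ∈ interior (P ∩ Q) := by
    rw [interior_inter]
    exact ⟨hxP, hxQ⟩
  obtain ⟨w, hw⟩ : ∃ w, l w ≠ 0 := by
    by_contra hc
    push Not at hc
    exact hl (ContinuousLinearMap.ext hc)
  have h2 : Filter.Tendsto (fun t : ℝ => x + t • w) (nhds 0) (nhds x) := by
    have : Continuous fun t : ℝ => x + t • w := by fun_prop
    have h3 := this.tendsto 0
    simpa using h3
  have h3 := h2 (isOpen_interior.mem_nhds h1)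
  rw [Filter.mem_map, Metric.mem_nhds_iff] at h3
  obtain ⟨ε, hε, h4⟩ := h3
  have h5 : x + (ε / 2) • w ∈ interior (P ∩ Q) := h4 (by simp [abs_of_pos hε]; linarith)
  have h6 := interior_subset h5
  have h7 := interior_subset h1
  have e1 : l x + c = 0 := le_antisymm (hQ x h7.2) (hP x h7.1)
  have e2 : l (x + (ε / 2) • w) + c = 0 := le_antisymm (hQ _ h6.2) (hP _ h6.1)
  rw [map_add, map_smul, smul_eq_mul] at e2
  have e3 : ε / 2 * l w = 0 := by linarith
  rcases mul_eq_zero.1 e3 with h8 | h8
  · linarith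
  · exact hw h8

/-- the coordinates other than the `m`-th -/
def prj (m : Fin 3) (x : E3) : Fin 2 → ℝ := fun i => x (m.succAbove i)

theorem prj_lip (m : Fin 3) : LipschitzWith 1 (prj m) := by
  refine LipschitzWith.of_dist_le_mul fun x y => ?_
  rw [NNReal.coe_one, one_mul, dist_pi_le_iff dist_nonneg]
  intro i
  rw [EuclideanSpace.dist_eq]
  apply Real.le_sqrt_of_sq_le
  exact Finset.single_le_sum (f := fun j => dist (x j) (y j) ^ 2) (fun j _ => sq_nonneg _) (Finset.mem_univ (m.succAbove i))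

theorem area_pos {a : Fin 3 → ℝ} {c : ℝ} {m : Fin 3} (ha : a m ≠ 0) {U : Set E3} (hU : IsOpen U) {p : E3} (hp : p ∈ U)
    (h0 : ∑ i, a i * p i + c = 0) : 0 < μH[2] (U ∩ {x : E3 | ∑ i, a i * x i + c = 0}) := by
  classical
  -- the section
  let s : (Fin 2 → ℝ) → E3 := fun y =>
    WithLp.toLp 2 (m.insertNth (-(c + ∑ i, a (m.succAbove i) * y i) / a m) y)
  have hs0 : ∀ y, s y m = -(c + ∑ i, a (m.succAbove i) * y i) / a m := fun y => by
    show (m.insertNth _ y : Fin 3 → ℝ) m = _
    exact Fin.insertNth_apply_same _ _ _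
  have hs1 : ∀ y i, s y (m.succAbove i) = y i := fun y i => by
    show (m.insertNth _ y : Fin 3 → ℝ) (m.succAbove i) = _
    exact Fin.insertNth_apply_succAbove _ _ _ _
  have hsum : ∀ x : E3, ∑ i, a i * x i = a m * x m + ∑ i, a (m.succAbove i) * x (m.succAbove i) := fun x =>
    Fin.sum_univ_succAbove (fun i => a i * x i) m
  have hpl : ∀ y, ∑ i, a i * s y i + c = 0 := by
    intro y
    rw [hsum, hs0]
    simp only [hs1]
    field_simp
    ring
  have hsp : s (prj m p) = p := by
    have h1 : s (prj m p) m = p m := by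
      rw [hs0]
      rw [hsum] at h0
      unfold prj
      rw [div_eq_iff ha]
      linear_combination -h0
    ext i
    rcases Fin.eq_self_or_eq_succAbove m i with rfl | ⟨j, rfl⟩
    · exact h1
    · rw [hs1]
      rfl
  have hsc : Continuous s := by
    refine (PiLp.continuous_toLp 2 _).comp ?_
    refine Continuous.finInsertNth m ?_ continuous_id
    fun_prop
  have hO : IsOpen (s ⁻¹' U) := hU.preimage hsc
  have hsub : s ⁻¹' U ⊆ prj m '' (U ∩ {x : E3 | ∑ i, a i * x i + c = 0}) := by
    intro y hy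
    refine ⟨s y, ⟨hy, hpl y⟩, ?_⟩
    ext i
    exact hs1 y i
  have h1 : 0 < (volume : Measure (Fin 2 → ℝ)) (s ⁻¹' U) := by
    refine hO.measure_pos volume ⟨prj m p, ?_⟩
    rw [Set.mem_preimage, hsp]
    exact hp
  have h2 := (prj_lip m).lipschitzOnWith (s := U ∩ {x : E3 | ∑ i, a i * x i + c = 0}) |>.hausdorffMeasure_image_le (d := 2) (by norm_num)
  rw [ENNReal.coe_one, ENNReal.one_rpow, one_mul] at h2
  have h3 : (μH[2] : Measure (Fin 2 → ℝ)) = volume := by
    have := hausdorffMeasure_pi_real (ι := Fin 2)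
    rw [Fintype.card_fin] at this
    exact_mod_cast this
  rw [h3] at h2
  exact lt_of_lt_of_le (lt_of_lt_of_le h1 (measure_mono hsub)) h2

end H68.NC
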